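import Pool.Agent.Helper48.WC.Num

set_option autoImplicit false

/-! # The monodromy conjecture for weighted Lê–Yomdin singularities

Let `w_0, ..., w_n > 0` be weights, `n ≥ 2`, and let `f = f_d + ...` be a polynomial with the weighted
initial form `f_d`, such that the hypersurface `f_d = 0` in the weighted projective space `ℙ(w)` has only
isolated singularities. Blow up the origin with the weights `w`; the exceptional divisor `z = 0` has the
numerical data `(d, |w|)`. The polynomial `f` is called a weighted Lê–Yomdin singularity (`LeYomdin`), if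
at every singular point of `f_d = 0` the initial form of `f` in formal coordinates `(y, z)` of the blow-up
is `z ^ d (h(y) + c z ^ κ)`, `c ≠ 0`, for the weights `κ a_i` of `y_i` and `e` of `z`, where `h` is
quasi-homogeneous of degree `e` for the weights `a_i`, with an isolated critical point; `κ` may depend on
the point. Then one weighted blow-up of each of these points, with the data `((d+κ) e, κ |a| + |w| e)` up
to a common factor, completes an embedded resolution. Example: `f = f_d + f_(d+k) + ...` with
semi-quasi-homogeneous singular points of `f_d = 0` where `f_(d+k)` does not vanish (then `κ = k`; if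
`w_j = 1`, these are the Lê–Yomdin singularities, and for `k = 1` the superisolated ones).

* (A) In all dimensions, the form `φ ^ (-|w|/d) Ω` on the complement of a hypersurface `φ = 0` of degree
  `d` in `ℙ(w)` with quasi-homogeneous isolated singularities is not exact, if no `-|w|/d - k`, `k ≥ 1`,
  is a root of the reduced Bernstein–Sato polynomial of a singular point (non-resonance), and all vector
  fields of weight `0` which annihilate `φ` have divergence `0` (`QHCone`). The second condition holds, if
  `d ≥ |w|` and `|a|/e ≥ |w|/d` at all singular points, i.e. if the hypersurface is log canonical with the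
  coefficient `|w|/d` (so `LCCone` implies `QHCone`). A numerical criterion for the first condition.
* (B) If the total transform of `f` in a modification has normal crossings on the exceptional divisor
  `(m, ν)` of the weighted blow-up of a point, but not at this point, then `-ν/m` is a root of `b` for all
  functional equations `b(s) f ^ s = P(s) f ^ (s+1)` near the image of the point, whatever the terms of
  higher weight are, if no residue number is a positive integer (`FromChart`).
* (C) In particular, this is so for the divisor over each point as above; the other singular points of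
  `f_d = 0` are arbitrary. A numerical criterion for the residue numbers.
* (D), (E) The strong monodromy conjecture, global and local at `0`, for all `f` whose numerical data are
  those of strict transforms, or come from non-exact initial forms, as in (A), or from (B).
* (F) The data of a weighted Lê–Yomdin singularity, at any point of the hypersurface, are of this kind,
  if they satisfy `NoResidue`, and `d = |w|`, or `f_d = 0` is log canonical and non-resonant as in (A), or
  (more generally) the form `f_d ^ (-|w|/d) Ω` is not exact.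
* (G) So the strong monodromy conjecture holds for these singularities in all dimensions. By the theorem
  of Malgrange and Kashiwara, all poles `s₀` of the topological zeta function give monodromy
  eigenvalues `exp(2 π i s₀)`.

The proof of (A): let `Θ` be a vector field with `Θ φ = 0` and `div Θ = φ ^ k`, `k ≥ 1`. Then `Θ` is a
combination of the Koszul vector fields `∂_i φ ∂_j - ∂_j φ ∂_i`: near a singular point, this is seen on
a slice (`comp_KV`: the component of weight `r` of the class of `Θ` in the Milnor algebra is annihilated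
by a number `c_r`, and it is zero if `c_r = 0`); this can be transferred to the polynomials by Krull's
theorem (`chart_KV`), and then it is true globally, since the Koszul homology has positive depth
(`depth_step`, by Saito's division lemma). So `k` can be lowered by one (`reduce_w`). For `k = 0`
one has a vector field `Θ` of weight `0` with divergence `c ≠ 0`. Let `ℓ : ℂ → ℚ` be a `ℚ`-linear form
with `ℓ(c) = 1`, and `q ≠ 0` a point with `Θ(q) = μ E(q)`, `E` the Euler vector field, such that `ℓ(μ)` is
maximal (`exists_fix`). If `q` is a singular point, then `μ (|w| e - d |a|) = e c` (`eig_sing`), a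
contradiction if `|a|/e ≥ |w|/d`. Otherwise the gradient `∇φ(q)` is an eigenvector of the linearisation of
`Θ - μ E` at `q` with the eigenvalue `-d μ`, and the other eigenvalues `ρ` satisfy `ℓ(ρ) ≤ 0`; so their sum
`c - |w| μ` gives `1 ≤ (|w| - d) ℓ(μ)`, a contradiction if `d ≥ |w|` (`div_zero_w`). The proof of (B):
`chart_root`. -/

namespace Pool.Agent.Results.MP_a2a574_ag.LeYomdin

open MvPolynomial Pool.Agent.H628R4.TP Pool.Agent.Helper48 Pool.Agent.Helper48.LY
  Pool.Agent.Helper48.WC

/-- **The monodromy conjecture for weighted Lê–Yomdin singularities.** -/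
theorem result :
    -- (A) cones over hypersurfaces with quasi-homogeneous isolated singularities
    (∀ (n : ℕ) (w : Fin (n + 1) → ℕ) (φ : MvPolynomial (Fin (n + 1)) ℂ) (d : ℕ), WC.QHCone w φ d →
      IF.NonexactForm w d φ) ∧
    (∀ (n : ℕ) (w : Fin (n + 1) → ℕ) (φ : MvPolynomial (Fin (n + 1)) ℂ) (d : ℕ),
      (∀ i, 0 < w i) → ∑ i, w i ≤ d → IsWeightedHomogeneous w φ d →
      (∀ q, WC.SingPt φ q → ∃ a e h, QHSlice w φ q a e h ∧ (∑ i, w i) * e ≤ d * ∑ i, a i) →
      ∀ Θ : Fin (n + 1) → MvPolynomial (Fin (n + 1)) ℂ,
        (∀ i, IsWeightedHomogeneous w (Θ i) (w i)) → ∑ i, Θ i * pderiv i φ = 0 →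
        ∑ i, pderiv i (Θ i) = 0) ∧
    (∀ (n : ℕ) (w : Fin (n + 1) → ℕ) (d : ℕ) (a : Fin n → ℕ) (e : ℕ) (h : MvPolynomial (Fin n) ℂ),
      QHPoly a e h → (∀ i, a i < e) → n * (d * e) < (∑ i, w i) * e + d * (∑ i, a i + e) →
      WC.NoResonance w d a e h) ∧
    -- (B) the root of a divisor which comes from a point of a modification
    (∀ (c : ℕ) (f : MvPolynomial (Fin c) ℂ) (p : Fin c → ℂ) (m ν : ℕ), FromChart f p m ν →
      ∀ b : Polynomial ℂ, IsBFunction f b ∨ (p = 0 ∧ f ≠ 0 ∧ IsLocalBFunction f b) →
        b.eval (-(ν : ℂ) / m) = 0) ∧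
    -- (C) the divisor over a point of the first exceptional divisor
    (∀ (n : ℕ) (w : Fin (n + 1) → ℕ) (f : MvPolynomial (Fin (n + 1)) ℂ) (p : Fin (n + 1) → ℂ)
      (d : ℕ), 1 ≤ n → (∀ i, 0 < w i) → 0 < d → ∀ (q : Fin (n + 1) → ℂ) (κ : ℕ) (a : Fin n → ℕ)
        (e : ℕ) (h : MvPolynomial (Fin n) ℂ), YPoint w (centred p f) d q κ a e h →
      WC.NoResidue w d κ a e → FromChart f p ((d + κ) * e) (κ * ∑ i, a i + (∑ i, w i) * e)) ∧
    (∀ (n : ℕ) (w : Fin (n + 1) → ℕ) (d κ : ℕ) (a : Fin n → ℕ) (e : ℕ), 0 < d → 0 < e →
      (∑ i, w i) * e ≤ d * ∑ i, a i → WC.NoResidue w d κ a e) ∧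
    (∀ (n : ℕ) (w : Fin (n + 1) → ℕ) (f : MvPolynomial (Fin (n + 1)) ℂ) (d k : ℕ),
      WC.Gap w f d k → ∀ (q : Fin (n + 1) → ℂ) (a : Fin n → ℕ) (e : ℕ)
        (h : MvPolynomial (Fin n) ℂ), WC.SingPt (weightedHomogeneousComponent w d f) q →
      eval q (weightedHomogeneousComponent w (d + k) f) ≠ 0 →
      SemiQHSlice w (weightedHomogeneousComponent w d f) q a e h → YPoint w f d q k a e h) ∧
    -- (D) the global strong monodromy conjecture
    (∀ (N : ℕ) (f : MvPolynomial (Fin N) ℂ) (b : Polynomial ℂ), IsBFunction f b →
      ∀ (S : Type) [Fintype S] (Nν : S → ℕ × ℕ), (∀ i, GlobalDatum f (Nν i).1 (Nν i).2) →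
        StrongConjecture Nν b) ∧
    -- (E) the local strong monodromy conjecture
    (∀ (N : ℕ) (f : MvPolynomial (Fin N) ℂ), f ≠ 0 →
      ∀ b : Polynomial ℂ, IsLocalBFunction f b →
      ∀ (S : Type) [Fintype S] (Nν : S → ℕ × ℕ), (∀ i, LocalDatum f (Nν i).1 (Nν i).2) →
        StrongConjecture Nν b) ∧
    -- (F) the data of a weighted Lê–Yomdin singularity at a point `p`
    (∀ (n : ℕ) (w : Fin (n + 1) → ℕ) (f : MvPolynomial (Fin (n + 1)) ℂ) (p : Fin (n + 1) → ℂ)
      (d : ℕ), 2 ≤ n → WC.LeYomdin w (centred p f) d →
      (d = ∑ i, w i ∨ LCCone w (weightedHomogeneousComponent w d (centred p f)) d ∨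
        IF.NonexactForm w d (weightedHomogeneousComponent w d (centred p f))) →
      ∀ m ν : ℕ, WC.LYDatum w (centred p f) d m ν →
        GlobalDatum f m ν ∧ (p = 0 → LocalDatum f m ν)) ∧
    -- (G) the strong monodromy conjecture for a weighted Lê–Yomdin singularity at the origin
    (∀ (n : ℕ) (w : Fin (n + 1) → ℕ) (f : MvPolynomial (Fin (n + 1)) ℂ) (d : ℕ), 2 ≤ n →
      WC.LeYomdin w f d → (d = ∑ i, w i ∨ LCCone w (weightedHomogeneousComponent w d f) d ∨
        IF.NonexactForm w d (weightedHomogeneousComponent w d f)) →
      ∀ b : Polynomial ℂ, IsBFunction f b ∨ IsLocalBFunction f b →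
      ∀ (S : Type) [Fintype S] (Nν : S → ℕ × ℕ), (∀ i, WC.LYDatum w f d (Nν i).1 (Nν i).2) →
        StrongConjecture Nν b) :=
  ⟨fun _ w φ d h => WC.nonexact_cone w φ d h,
    fun _ w φ d hw hd hφ hS Θ hΘ h => div_zero_w w hw φ d hd hφ hS Θ hΘ h,
    fun _ w d a e h hQ hae hnum => noResonance_of w d a e h hQ hae hnum,
    fun _ f p m ν h b hb => t_chart f p m ν h b hb,
    fun _ w f p d hn hw hd q κ a e h hQ hlam => fromChart_Y hn w hw f p d hd q κ a e h hQ hlam,
    fun _ w d κ a e hd he h => noResidue_of w d κ hd a e he h,
    fun _ w f d k hf q a e h hq h2 hQ => ypoint_of_gap w f d k hf q a e h hq h2 hQ,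
    fun N f b hb S _ Nν h => t_global N f b hb S Nν h,
    fun N f hf b hb S _ Nν h => t_local N f hf b hb S Nν h,
    fun _ w f p d hn hf hQ m ν h => t_cert' hn w f p d hf hQ m ν h,
    fun _ w f d hn hf hQ b hb S _ Nν h => t_LY' hn w f d hf hQ b hb S Nν h⟩

end Pool.Agent.Results.MP_a2a574_ag.LeYomdin
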