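import Pool.Agent.Helper16.WM.NDatum

set_option autoImplicit false

/-! # The weak monodromy conjecture and the facets of Newton polyhedra in real chambers

Let `f = g A B` (in polynomial coordinates with the origin `x₀`), where `g` is a complex polynomial with
`g(0) ≠ 0`, `A` and `B` are polynomials over a field `k ⊆ ℂ` with a real embedding `τ`, `A` is
*arbitrary* and the coefficients of `B^τ` on the compact faces of its Newton polyhedron are positive (or only
those in a set `V` of exponents, if all the other exponents lie in `conv(V) + (ℝ_{≥ 0}^N ∖ {0})`: their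
coefficients are arbitrary); suppose that for each `i` either `x_i` divides
`f`, or only even powers of `x_i` occur in the monomials of `V` (`i ∈ J`). Let `w` be the weights of a facet
(compact or not) of the Newton polyhedron of `B`, and let `N_w` be the order of `f` with the weights `w`, so
that `(N_w, |w|)` are the numerical data of the corresponding toric divisor. Then `-|w|/N_w + z` is a root of
the local Bernstein-Sato polynomial of `f` at `x₀` (`IsBFunctionAt`: the coefficients of the differential
operator are regular functions at `x₀`) for some integer `z`, so `exp(-2πi|w|/N_w)` is a monodromy eigenvalue at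
points in each neighbourhood of `x₀`, and so are all `exp(-2πi(|w| + ⟨q, w⟩)/N_w)`, `q ∈ ℤ^N`, `q_i` even for `i ∈ J`: these are all `N_w`-th roots of
unity if `J = ∅` and `w` is primitive. No nondegeneracy is assumed: the multiplicities, the other factors, the
higher terms and the singularities of `f` (outside the orthant, and complex ones) are arbitrary.

More generally it is enough that `|B|` dominates on a real chamber of `f` monomials of the minimal weight
which span with the `e_i`, `w_i = 0` (`NGeo`).

The proof: let `t₀ = -(|w| + e)/N_w - j` and `h = A ^ (j + q) H x ^ n`, where `n` is a large multiple of the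
sum of the exponents of weight `c` of `B` and of the `e_i`, `w_i = 0`, so that all the exponents which occur
in `h` (plus `(1, ..., 1)`) lie in the interior of the cone over the facet. Then `∫_Ω |f| ^ t h φ` is finite
for `t > t₀` (since `|B| ≥ c₀ ∏ |x ^ v| ^ (λ_v / Λ)`, it is bounded by integrals of monomials,
`NFin.main`) and infinite for `t = t₀` (`NInf.main`). The functional equation at the point is applied `M`
times, `M > |t₀|` (`WL.pow_at`; `WL.fam_unit` removes the factor `g`): `u ^ n Q(s) f ^ (M s) =
P'(s) f ^ (M (s + 1))`, `Q(s) = ∏ b(M s + l)`. If `Q(t₀ / M) ≠ 0`, a linear functional `ℂ → k` with the value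
`1` at `u(0) ^ n Q(t₀ / M)` gives a functional equation over `k` with a coefficient `∑ R_j(x) s ^ j` in the
place of `b(s)`, which is `1` at the origin for the critical exponent (`WL.transfer_at`), so it is `≥ 1/2`
near the origin and near the critical exponent. Its right hand side stays bounded for `t → t₀`
(integration by parts for large integers, and Carlson's theorem), its left hand side does not
(`WL.root_at`). -/

namespace Pool.Agent.Results.MP_a2a574_ag.NewtonFacets

open MvPolynomial Pool.Agent.H628R4.TP Pool.Agent.Helper16.WM Pool.Agent.Helper16.WL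

/-- **The weak monodromy conjecture and the facets of Newton polyhedra in real chambers.** -/
theorem result :
    -- (A) the candidate poles of the facets at the point `x₀`
    (∀ (N : ℕ) (x₀ : Fin N → ℂ) (f : MvPolynomial (Fin N) ℂ) (b : Polynomial ℂ),
      IsBFunctionAt x₀ f b →
      ∀ m ν : ℕ, 1 ≤ m → FacetDatum x₀ f m ν → ∃ z : ℤ, b.eval (-(ν : ℂ) / m + z) = 0) ∧
    -- (B) the poles of the topological zeta function
    (∀ (N : ℕ) (f : MvPolynomial (Fin N) ℂ) (b : Polynomial ℂ), IsBFunction f b →
      ∀ (S : Type) [Fintype S] (Nν : S → ℕ × ℕ) (χ : Finset S → Polynomial ℂ) (s₀ : ℂ),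
      (∀ (I : Finset S) (i : S), χ I ≠ 0 → i ∈ I → 1 ≤ (Nν i).1 →
        s₀ = -((Nν i).2 : ℂ) / (Nν i).1 →
          ∃ x₀ : Fin N → ℂ, FacetDatum x₀ f (Nν i).1 (Nν i).2) →
      (topZ Nν χ).denom.eval s₀ = 0 → ∃ z : ℤ, b.eval (s₀ + z) = 0) ∧
    -- (C) products `A B`, `A` arbitrary, `B` with positive coefficients on the compact faces
    (∀ (k : Type) [Field k] (ι : k →+* ℂ) (τ : k →+* ℝ) (N : ℕ) (x₀ : Fin N → ℂ)
      (f u : MvPolynomial (Fin N) ℂ)
      (Φ : MvPolynomial (Fin N) ℂ ≃ₐ[ℂ] MvPolynomial (Fin N) ℂ) (A B : MvPolynomial (Fin N) k),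
      (∀ i, eval 0 (Φ (X i)) = x₀ i) → eval 0 u ≠ 0 → Φ f = u * map ι (A * B) → ∀ (J : Finset (Fin N)) (V : Finset (Fin N →₀ ℕ)), V ⊆ B.support →
      (∀ v ∈ V, 0 < τ (coeff v B)) → (∀ v ∈ V, ∀ i ∈ J, Even (v i)) →
      (∀ u ∈ B.support, u ∉ V → Above V u) → (∀ i, i ∉ J → X i ∣ A * B) →
      ∀ (w : Fin N → ℕ) (a c : ℕ), 0 < c → HasOrder w a A → HasOrder w c B →
      Spans w (V.filter fun v => wt w v = c) →
        (∀ q : Fin N → ℤ, (∀ i ∈ J, Even (q i)) → ∀ (m ν : ℕ) (z : ℤ),
          (ν : ℚ) / m = ((∑ i, (w i : ℤ) * (1 + q i) : ℤ) : ℚ) / ((a + c : ℕ) : ℚ) + z →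
          NewtonDatum x₀ f m ν) ∧
        (J = ∅ → Finset.univ.gcd w = 1 → ∀ m ν : ℕ, 1 ≤ m → m ∣ a + c →
          NewtonDatum x₀ f m ν)) := by
  refine ⟨fun N x₀ f b hb m ν hm h => h.root hm hb,
    fun N f b hb S _ Nν χ s₀ h hs₀ => facet_monodromy hb Nν χ s₀ h hs₀,
    fun k _ ι τ N x₀ f u Φ A B hΦ hu hf J V hV hpos hJ hab hJ' w a c hc hA hB hT =>
      ⟨fun q hq m ν z h => newtonDatum_of_pos ι τ Φ hΦ hu hf J V hV hpos hJ hab hJ' w a c hc hA hB hT
        q hq m ν z h,
      fun hJ0 hw m ν hm hmd => ?_⟩⟩
  subst hJ0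
  exact newtonDatum_all ι τ Φ hΦ hu hf V hV hpos hab (fun i => hJ' i (Finset.notMem_empty i)) w a c hc hA hB
    hT hw m ν hm hmd

end Pool.Agent.Results.MP_a2a574_ag.NewtonFacets
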