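import Pool.Agent.Helper16.WM.Datum

set_option autoImplicit false

/-! # The weak monodromy conjecture and real chambers

Let `f ∈ ℂ[x_1, ..., x_N]` and let `E` be the exceptional divisor of a (weighted) blow-up of a smooth centre
(in polynomial coordinates), with the numerical data `(m, ν)`. Suppose that `f = v A B` in these
coordinates, that `v(0) ≠ 0`, that `A` and `B` are defined over a field `k` with a real embedding `τ`, and that
the real polynomial `(A B)^τ` has a chamber `Ω` at the centre (an open set bounded by its zeros near the origin),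
on which `B^τ` vanishes exactly to its order `c > 0` along the centre. Nothing else is assumed: the multiplicities of
the factors, the terms of higher weight, and all singularities of `f` (real ones outside the closure of
`Ω`, and complex ones) are arbitrary. Then `exp(-2 π i ν / m)` is a monodromy eigenvalue: `-ν/m + z` is a
root of the Bernstein-Sato polynomial for some integer `z`. The same holds for
`-(ν + e)/m`, where `e` is the order along the centre of a polynomial which is `≥ 0` on `Ω`.

The proof: let `t₀ = -(ν + e)/m - j`, `j` large, and let `h = A ^ (j + q) H x_i ^ (2 μ)` be of the weighted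
order `m j + e`: the high power of `A` is compensated by the power `μ`, which is possible since `c > 0`.
Then `∫_Ω |f| ^ t h φ` is finite for `t > t₀` and infinite for `t = t₀` (`pFin`, `pInf`), since near the
boundary of `Ω` the factor `A ^ (j + q)` dominates `|f| ^ t₀`, whatever the multiplicities are. The functional
equation is applied `M` times, `M > |t₀|` (`pPow`, a functional equation of `f ^ M`), then the right hand
side stays bounded for `t → t₀` (`pAbs`; integration by parts for large integers, and Carlson's theorem,
as in `MP_b07157_ag.RealChambers`), so one of the factors `b(t₀ + l)`, `l < M`, is zero. The functional equation is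
transferred from `ι` to `τ` as in that result. In comparison with it (strong conjecture, root `-N/d` of a
form), no integrability and no bound of multiplicities is needed, and `f` need not be homogeneous. -/

namespace Pool.Agent.Results.MP_a2a574_ag.RealChambers

open MvPolynomial Pool.Agent.H628R4.TP Pool.Agent.Helper16.WM

/-- **The weak monodromy conjecture and real chambers.** -/
theorem result :
    -- (A) the candidate poles of the divisors with a real chamber (and of the other weak data)
    (∀ (N : ℕ) (f : MvPolynomial (Fin N) ℂ) (b : Polynomial ℂ), IsBFunction f b →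
      ∀ m ν : ℕ, 1 ≤ m → WeakDatum f m ν → ∃ z : ℤ, b.eval (-(ν : ℂ) / m + z) = 0) ∧
    -- (B) the poles of the topological zeta function
    (∀ (N : ℕ) (f : MvPolynomial (Fin N) ℂ) (b : Polynomial ℂ), IsBFunction f b →
      ∀ (S : Type) [Fintype S] (Nν : S → ℕ × ℕ) (χ : Finset S → Polynomial ℂ) (s₀ : ℂ),
      (∀ (I : Finset S) (i : S), χ I ≠ 0 → i ∈ I → 1 ≤ (Nν i).1 →
        s₀ = -((Nν i).2 : ℂ) / (Nν i).1 → WeakDatum f (Nν i).1 (Nν i).2) →
      (topZ Nν χ).denom.eval s₀ = 0 → ∃ z : ℤ, b.eval (s₀ + z) = 0) ∧
    -- (C) forms
    (∀ (k : Type) [Field k] (ι : k →+* ℂ) (τ : k →+* ℝ) (N a c : ℕ), 0 < c →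
      ∀ A B : MvPolynomial (Fin N) k, A.IsHomogeneous a → B.IsHomogeneous c →
      ∀ Δ : Set (Fin N → ℝ), Chamber (map τ A) (map τ B) Δ →
        RealDatum (map ι (A * B)) (a + c) N ∧
        ∀ m ν : ℕ, 1 ≤ m → m ∣ a + c →
          (Odd (a + c) ∨ Even ((a + c) / m * ν + N) ∨
            ∃ l : MvPolynomial (Fin N) ℝ, l.IsHomogeneous 1 ∧ l ≠ 0 ∧ ∀ x ∈ Δ, 0 ≤ eval x l) →
          RealDatum (map ι (A * B)) m ν) := by
  refine ⟨fun N f b hb m ν hm h => h.root hm hb,
    fun N f b hb S _ Nν χ s₀ h hs₀ => weak_monodromy hb Nν χ s₀ h hs₀,
    fun k _ ι τ N a c hc A B hA hB Δ h => ⟨?_, fun m ν hm hmd hpar =>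
      realDatum_of_chamber ι τ hc A B hA hB Δ h m ν hm hmd hpar⟩⟩
  refine realDatum_of_chamber ι τ hc A B hA hB Δ h (a + c) N (by omega) dvd_rfl (Or.inr (Or.inl ?_))
  rw [Nat.div_self (by omega), one_mul]
  exact ⟨N, rfl⟩

end Pool.Agent.Results.MP_a2a574_ag.RealChambers
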